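import Pool.Agent.Helper65_PV.Stmts

/-!
Squad PV (MP_e25c73_gt): CO, the relation `SameData` is closed.
-/

set_option autoImplicit false

open MeasureTheory Metric Set Filter Topology

namespace PV.H18co

open PV

section

variable {n : ℕ}

/-- the hyperplane -/
noncomputable abbrev W (w : E n) : Submodule ℝ (E n) := (Submodule.span ℝ {w})ᗮ

lemma mem_W {w y : E n} : y ∈ W w ↔ inner ℝ w y = 0 :=
  Submodule.mem_orthogonal_singleton_iff_inner_right

variable {w : E n} (hw : ‖w‖ = 1)

lemma proj_sub (x y : E n) : proj w (x - y) = proj w x - proj w y := by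
  simp only [proj, inner_sub_left, sub_smul]
  abel

lemma proj_add (x y : E n) : proj w (x + y) = proj w x + proj w y := by
  simp only [proj, inner_add_left, add_smul]
  abel

lemma proj_smul (c : ℝ) (x : E n) : proj w (c • x) = c • proj w x := by
  simp only [proj, inner_smul_left, mul_smul, smul_sub]
  rfl

include hw in
lemma proj_mem (x : E n) : proj w x ∈ W w := by
  rw [mem_W]
  simp only [proj, inner_sub_right, inner_smul_right, real_inner_self_eq_norm_sq, hw]
  rw [real_inner_comm]
  ring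

/-- the projection to the hyperplane -/
noncomputable def P (x : E n) : W w := ⟨proj w x, proj_mem hw x⟩

lemma P_lin : IsLinearMap ℝ (P hw) :=
  ⟨fun x y => Subtype.ext (proj_add x y), fun c x => Subtype.ext (proj_smul c x)⟩

include hw in
lemma norm_proj (x : E n) : ‖proj w x‖ ≤ ‖x‖ := by
  have h1 : ‖proj w x‖ ^ 2 = ‖x‖ ^ 2 - (inner ℝ x w) ^ 2 := by
    rw [← real_inner_self_eq_norm_sq, ← real_inner_self_eq_norm_sq]
    simp only [proj, inner_sub_left, inner_sub_right, inner_smul_left, inner_smul_right,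
      real_inner_self_eq_norm_sq, hw, real_inner_comm x w]
    simp
    ring
  have h2 : ‖proj w x‖ ^ 2 ≤ ‖x‖ ^ 2 := by nlinarith [sq_nonneg (inner ℝ x w)]
  exact le_of_sq_le_sq h2 (norm_nonneg x)

lemma dist_P (x y : E n) : dist (P hw x) (P hw y) ≤ dist x y := by
  rw [dist_eq_norm, dist_eq_norm]
  change ‖proj w x - proj w y‖ ≤ ‖x - y‖
  rw [← proj_sub]
  exact norm_proj hw _

lemma continuous_P : Continuous (P hw) :=
  (LipschitzWith.of_dist_le_mul (K := 1) fun x y => by
    rw [NNReal.coe_one, one_mul]; exact dist_P hw x y).continuous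

lemma proj_of_mem {z : E n} (hz : z ∈ W w) : proj w z = z := by
  unfold proj
  rw [real_inner_comm, mem_W.mp hz, zero_smul, sub_zero]

lemma interior_P {K : Set (E n)} (hK : (interior K).Nonempty) : (interior (P hw '' K)).Nonempty := by
  obtain ⟨x, hx⟩ := hK
  obtain ⟨r, hr, hball⟩ := Metric.isOpen_iff.mp isOpen_interior x hx
  refine ⟨P hw x, mem_interior_iff_mem_nhds.mpr (Metric.mem_nhds_iff.mpr ⟨r, hr, fun y hy => ?_⟩)⟩
  refine ⟨x + ((y : E n) - proj w x), interior_subset (hball ?_), ?_⟩
  · rw [mem_ball, dist_eq_norm, add_sub_cancel_left]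
    rw [mem_ball, dist_eq_norm] at hy
    exact hy
  · refine Subtype.ext ?_
    change proj w (x + ((y : E n) - proj w x)) = y
    rw [proj_add, proj_sub, proj_of_mem y.2, proj_of_mem (proj_mem hw x)]
    abel

lemma image_eq (K : Set (E n)) : proj w '' K = Subtype.val '' (P hw '' K) := by
  rw [image_image]
  rfl

/-- the measure -/
noncomputable def mu (w : E n) : Measure (W w) := Measure.hausdorffMeasure ((n : ℝ) - 1)

lemma finrank_W (hw : ‖w‖ = 1) : Module.finrank ℝ (W w) + 1 = n := by
  have e1 := Submodule.finrank_add_finrank_orthogonal (Submodule.span ℝ {w})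
  have hw0 : w ≠ 0 := by
    intro h; rw [h, norm_zero] at hw; norm_num at hw
  rw [finrank_span_singleton hw0] at e1
  have e3 : Module.finrank ℝ (E n) = n := by simp
  rw [e3] at e1
  change Module.finrank ℝ ((Submodule.span ℝ {w})ᗮ : Submodule ℝ (E n)) + 1 = n
  omega

lemma mu_haar (hw : ‖w‖ = 1) : (mu w).IsAddHaarMeasure := by
  have h1 : ((Module.finrank ℝ (W w) : ℕ) : ℝ) = (n : ℝ) - 1 := by
    have := finrank_W hw
    have h2 : ((Module.finrank ℝ (W w) + 1 : ℕ) : ℝ) = n := by exact_mod_cast this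
    push_cast at h2
    linarith
  unfold mu
  rw [← h1]
  infer_instance

lemma bright_eq (hn : 1 ≤ n) (K : Set (E n)) : brightness K w = mu w (P hw '' K) := by
  unfold brightness mu
  rw [image_eq hw]
  refine Isometry.hausdorffMeasure_image isometry_subtype_coe (Or.inl ?_) _
  have : (1 : ℝ) ≤ n := by exact_mod_cast hn
  linarith

lemma int_eq (hn : 1 ≤ n) (K : Set (E n)) :
    ∫ x in proj w '' K, x ∂(Measure.hausdorffMeasure ((n : ℝ) - 1) : Measure (E n))
      = ∫ y in P hw '' K, (y : E n) ∂(mu w) := by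
  have h0 : (0 : ℝ) ≤ (n : ℝ) - 1 := by
    have : (1 : ℝ) ≤ n := by exact_mod_cast hn
    linarith
  have hmap := Isometry.map_hausdorffMeasure (X := W w) (Y := E n) (f := Subtype.val)
    isometry_subtype_coe (Or.inl h0)
  rw [image_eq hw]
  have hemb : MeasurableEmbedding (Subtype.val : W w → E n) :=
    MeasurableEmbedding.subtype_coe (Submodule.closed_of_finiteDimensional (W w)).measurableSet
  have h1 : ∫ x in Subtype.val '' (P hw '' K), x ∂(Measure.map (Subtype.val : W w → E n) (mu w))
      = ∫ y in P hw '' K, (y : E n) ∂(mu w) := by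
    rw [hemb.setIntegral_map, preimage_image_eq _ Subtype.val_injective]
  rw [← h1]
  unfold mu
  rw [hmap, Measure.restrict_restrict_of_subset]
  rintro _ ⟨y, -, rfl⟩
  exact mem_range_self y

lemma P_image_compact {K : Set (E n)} (hK : IsCompact K) : IsCompact (P hw '' K) :=
  hK.image (continuous_P hw)

lemma P_image_convex {K : Set (E n)} (hK : Convex ℝ K) : Convex ℝ (P hw '' K) :=
  hK.is_linear_image (P_lin hw)

lemma inner_int (hn : 1 ≤ n) {K : Set (E n)} (hK : IsCompact K) (a : E n) :
    inner ℝ a (∫ x in proj w '' K, x ∂(Measure.hausdorffMeasure ((n : ℝ) - 1) : Measure (E n)))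
      = ∫ y in P hw '' K, inner ℝ a (y : E n) ∂(mu w) := by
  have := mu_haar hw
  rw [int_eq hw hn, integral_inner]
  exact continuous_subtype_val.continuousOn.integrableOn_compact (P_image_compact hw hK)

/-- a set which is not full has a shadow of measure zero in every direction in its hyperplane -/
lemma degenerate (hn : 2 ≤ n) (L : ConvexBody (E n)) (hL : ¬ Full (L : Set (E n))) :
    ∃ (w : E n) (hw : ‖w‖ = 1), mu w (P hw '' (L : Set (E n))) = 0 := by
  obtain ⟨x0, hx0⟩ := L.nonempty
  have h1 : affineSpan ℝ (L : Set (E n)) ≠ ⊤ := fun h =>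
    hL ((Convex.interior_nonempty_iff_affineSpan_eq_top L.convex).mpr h)
  have hx0' : x0 ∈ affineSpan ℝ (L : Set (E n)) := subset_affineSpan ℝ _ hx0
  have h2 : (affineSpan ℝ (L : Set (E n))).direction ≠ ⊤ := by
    intro h
    exact h1 ((AffineSubspace.direction_eq_top_iff_of_nonempty ⟨x0, hx0'⟩).mp h)
  obtain ⟨a, ha, ha0⟩ : ∃ a ∈ ((affineSpan ℝ (L : Set (E n))).direction)ᗮ, a ≠ 0 := by
    by_contra hcon
    push Not at hcon
    exact h2 (Submodule.orthogonal_eq_bot_iff.mp ((Submodule.eq_bot_iff _).mpr hcon))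
  have h3 : ∀ x ∈ (L : Set (E n)), inner ℝ a (x - x0) = 0 := by
    intro x hx
    have := (Submodule.mem_orthogonal _ _).mp ha (x - x0)
      (AffineSubspace.vsub_mem_direction (subset_affineSpan ℝ _ hx) hx0')
    rwa [real_inner_comm] at this
  -- choose w
  obtain ⟨w, hw, haw⟩ : ∃ w : E n, ‖w‖ = 1 ∧ inner ℝ a w = 0 := by
    have e1 := Submodule.finrank_add_finrank_orthogonal (Submodule.span ℝ {a})
    rw [finrank_span_singleton ha0] at e1
    have e3 : Module.finrank ℝ (E n) = n := by simp
    rw [e3] at e1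
    have e4 : (Submodule.span ℝ {a})ᗮ ≠ ⊥ := by
      intro h
      rw [h, finrank_bot] at e1
      omega
    obtain ⟨v, hv, hv0⟩ := (Submodule.ne_bot_iff _).mp e4
    refine ⟨(‖v‖)⁻¹ • v, ?_, ?_⟩
    · rw [norm_smul, norm_inv, norm_norm, inv_mul_cancel₀ (norm_ne_zero_iff.mpr hv0)]
    · rw [inner_smul_right, Submodule.mem_orthogonal_singleton_iff_inner_right.mp hv, mul_zero]
  refine ⟨w, hw, ?_⟩
  have := mu_haar hw
  have haW : a ∈ W w := by rw [mem_W, real_inner_comm]; exact haw
  let a' : W w := ⟨a, haW⟩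
  have ha' : a' ≠ 0 := fun h => ha0 (congrArg Subtype.val h)
  let S : AffineSubspace ℝ (W w) := AffineSubspace.mk' (P hw x0) (Submodule.span ℝ {a'})ᗮ
  have hS : S ≠ ⊤ := by
    intro h
    have h4 : S.direction = (⊤ : Submodule ℝ (W w)) := by rw [h, AffineSubspace.direction_top]
    rw [AffineSubspace.direction_mk'] at h4
    have h5 : a' ∈ (Submodule.span ℝ {a'})ᗮ := by rw [h4]; trivial
    rw [Submodule.mem_orthogonal_singleton_iff_inner_right, inner_self_eq_zero] at h5
    exact ha' h5
  refine measure_mono_null ?_ (Measure.addHaar_affineSubspace (mu w) S hS)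
  rintro _ ⟨x, hx, rfl⟩
  change P hw x ∈ S
  rw [AffineSubspace.mem_mk', vsub_eq_sub, Submodule.mem_orthogonal_singleton_iff_inner_right]
  change inner ℝ a (proj w x - proj w x0) = 0
  rw [← proj_sub]
  unfold proj
  rw [inner_sub_right, inner_smul_right, haw, mul_zero, sub_zero]
  exact h3 x hx

lemma thick {K L : ConvexBody (E n)} {e : ℝ} (h : dist K L < e) :
    P hw '' (K : Set (E n)) ⊆ thickening e (P hw '' (L : Set (E n))) := by
  rintro _ ⟨x, hx, rfl⟩
  rw [← ConvexBody.hausdorffDist_coe] at h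
  obtain ⟨y, hy, hxy⟩ := Metric.exists_dist_lt_of_hausdorffDist_lt hx h
    ConvexBody.hausdorffEDist_ne_top
  rw [mem_thickening_iff]
  exact ⟨P hw y, mem_image_of_mem _ hy, (dist_P hw x y).trans_lt hxy⟩

/-- CO -/
theorem co (hCV : CVStmt) : COStmt := by
  intro n hn K L K' L' hj hK hL hF
  have hn1 : 1 ≤ n := by omega
  have hthick : ∀ {w : E n} (hw : ‖w‖ = 1) {K : ℕ → ConvexBody (E n)} {K' : ConvexBody (E n)},
      Tendsto K atTop (𝓝 K') → ∀ e : ℝ, 0 < e → ∀ᶠ j in atTop,
        P hw '' (K j : Set (E n)) ⊆ thickening e (P hw '' (K' : Set (E n))) ∧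
        P hw '' (K' : Set (E n)) ⊆ thickening e (P hw '' (K j : Set (E n))) := by
    intro w hw K K' hK e he
    filter_upwards [(Metric.tendsto_nhds.mp hK) e he] with j hj
    exact ⟨thick hw hj, thick hw (by rwa [dist_comm])⟩
  have hlim : ∀ {w : E n} (hw : ‖w‖ = 1) {K : ℕ → ConvexBody (E n)} {K' : ConvexBody (E n)},
      Tendsto K atTop (𝓝 K') → ∀ g : W w → ℝ, Continuous g →
      Tendsto (fun j => ∫ x in P hw '' (K j : Set (E n)), g x ∂(mu w)) atTop
        (𝓝 (∫ x in P hw '' (K' : Set (E n)), g x ∂(mu w))) := by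
    intro w hw K K' hK g hg
    have := mu_haar hw
    exact hCV (W w) (mu w) _ _ (fun j => P_image_compact hw (K j).isCompact)
      (fun j => P_image_convex hw (K j).convex) (P_image_compact hw K'.isCompact)
      (P_image_convex hw K'.convex) (hthick hw hK) g hg
  have hfin : ∀ {w : E n} (hw : ‖w‖ = 1) (K : ConvexBody (E n)),
      mu w (P hw '' (K : Set (E n))) ≠ ⊤ := by
    intro w hw K
    have := mu_haar hw
    exact (P_image_compact hw K.isCompact).measure_lt_top.ne
  have hpos : ∀ {w : E n} (hw : ‖w‖ = 1) (K : ConvexBody (E n)), Full (K : Set (E n)) →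
      mu w (P hw '' (K : Set (E n))) ≠ 0 := by
    intro w hw K hK
    have := mu_haar hw
    exact (Measure.measure_pos_of_nonempty_interior (mu w) (interior_P hw hK)).ne'
  have hone : ∀ {w : E n} (hw : ‖w‖ = 1) (K : ConvexBody (E n)),
      ∫ _ in P hw '' (K : Set (E n)), (1 : ℝ) ∂(mu w)
        = (mu w (P hw '' (K : Set (E n)))).toReal := by
    intro w hw K
    simp [Measure.real]
  -- equality of the volumes in the limit
  have hvol : ∀ {w : E n} (hw : ‖w‖ = 1),
      mu w (P hw '' (K' : Set (E n))) = mu w (P hw '' (L' : Set (E n))) := by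
    intro w hw
    have t1 := hlim hw hK (fun _ => 1) continuous_const
    have t2 := hlim hw hL (fun _ => 1) continuous_const
    have e1 : ∀ j, ∫ _ in P hw '' (K j : Set (E n)), (1 : ℝ) ∂(mu w)
        = ∫ _ in P hw '' (L j : Set (E n)), (1 : ℝ) ∂(mu w) := by
      intro j
      rw [hone, hone, ← bright_eq hw hn1, ← bright_eq hw hn1, ((hj j).2.2 w hw).1]
    have e2 := tendsto_nhds_unique (t1.congr e1) t2
    rw [hone, hone] at e2
    exact (ENNReal.toReal_eq_toReal_iff' (hfin hw K') (hfin hw L')).mp e2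
  have hmom : ∀ {w : E n} (hw : ‖w‖ = 1) (a : E n),
      ∫ y in P hw '' (K' : Set (E n)), inner ℝ a (y : E n) ∂(mu w)
        = ∫ y in P hw '' (L' : Set (E n)), inner ℝ a (y : E n) ∂(mu w) := by
    intro w hw a
    have hc : Continuous fun y : W w => inner ℝ a (y : E n) := by fun_prop
    have t1 := hlim hw hK (fun y => inner ℝ a (y : E n)) hc
    have t2 := hlim hw hL (fun y => inner ℝ a (y : E n)) hc
    refine tendsto_nhds_unique (t1.congr fun j => ?_) t2
    rw [← inner_int hw hn1 (K j).isCompact, ← inner_int hw hn1 (L j).isCompact]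
    obtain ⟨h1, h2⟩ := (hj j).2.2 w hw
    unfold centroid at h2
    rw [h1] at h2
    have hb : (brightness (L j : Set (E n)) w).toReal ≠ 0 := by
      rw [bright_eq hw hn1]
      exact ENNReal.toReal_ne_zero.mpr ⟨hpos hw _ (hj j).2.1, hfin hw _⟩
    rw [smul_right_injective _ (inv_ne_zero hb) h2]
  constructor
  · by_contra hL'
    obtain ⟨w, hw, h0⟩ := degenerate hn L' hL'
    exact hpos hw K' hF ((hvol hw).trans h0)
  · intro w hw
    have hb : brightness (K' : Set (E n)) w = brightness (L' : Set (E n)) w := by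
      rw [bright_eq hw hn1, bright_eq hw hn1, hvol hw]
    refine ⟨hb, ?_⟩
    unfold centroid
    rw [hb]
    congr 1
    refine ext_inner_left ℝ fun a => ?_
    rw [inner_int hw hn1 K'.isCompact, inner_int hw hn1 L'.isCompact]
    exact hmom hw a

end

end PV.H18co
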