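import Pool.Agent.Helper65_PV.Stmts

/-!
Squad PV (MP_e25c73_gt): KE, the key lemma in Euclidean space.
-/

set_option autoImplicit false

open MeasureTheory Metric Set Filter Topology

namespace PV.H18

open PV

section

variable {n : ℕ} {Z : Type} [NormedAddCommGroup Z] [InnerProductSpace ℝ Z]
  (u ν : E n) (ι : Z →ₗᵢ[ℝ] E n)

lemma coord_add (p q : ℝ × ℝ × Z) : coord u ν ι (p + q) = coord u ν ι p + coord u ν ι q := by
  simp only [coord, Prod.fst_add, Prod.snd_add, add_smul, map_add]
  abel

lemma coord_smul (a : ℝ) (p : ℝ × ℝ × Z) : coord u ν ι (a • p) = a • coord u ν ι p := by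
  simp only [coord, Prod.smul_fst, Prod.smul_snd, smul_eq_mul, mul_smul, map_smul, smul_add]

lemma coord_lin : IsLinearMap ℝ (coord u ν ι) := ⟨coord_add u ν ι, coord_smul u ν ι⟩

lemma continuous_coord : Continuous (coord u ν ι) := by
  unfold coord
  have := ι.continuous
  fun_prop

variable {u ν ι} (hu : ‖u‖ = 1) (hν : ‖ν‖ = 1) (huν : inner ℝ u ν = 0)
  (h1 : ∀ z, inner ℝ u (ι z) = 0) (h2 : ∀ z, inner ℝ ν (ι z) = 0)

include hν huν h2 in
lemma inner_coord (p : ℝ × ℝ × Z) : inner ℝ (coord u ν ι p) ν = p.2.1 := by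
  unfold coord
  rw [inner_add_left, inner_add_left, inner_smul_left, inner_smul_left, huν,
    real_inner_self_eq_norm_sq, hν, real_inner_comm, h2]
  simp

include hu huν h1 in
lemma inner_coord' (p : ℝ × ℝ × Z) : inner ℝ (coord u ν ι p) u = p.1 := by
  unfold coord
  rw [inner_add_left, inner_add_left, inner_smul_left, inner_smul_left,
    real_inner_self_eq_norm_sq, hu, real_inner_comm u ν, huν, real_inner_comm u (ι p.2.2), h1]
  simp

include hu hν huν h1 h2 in
lemma norm_coord (p : ℝ × ℝ × Z) : ‖p‖ ≤ 3 * ‖coord u ν ι p‖ := by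
  have a1 : |p.1| ≤ ‖coord u ν ι p‖ := by
    rw [← inner_coord' hu huν h1 p]
    have := abs_real_inner_le_norm (coord u ν ι p) u
    rwa [hu, mul_one] at this
  have a2 : |p.2.1| ≤ ‖coord u ν ι p‖ := by
    rw [← inner_coord hν huν h2 p]
    have := abs_real_inner_le_norm (coord u ν ι p) ν
    rwa [hν, mul_one] at this
  have a3 : ‖p.2.2‖ ≤ 3 * ‖coord u ν ι p‖ := by
    have e1 : ι p.2.2 = coord u ν ι p - p.1 • u - p.2.1 • ν := by
      unfold coord
      abel
    calc ‖p.2.2‖ = ‖ι p.2.2‖ := (ι.norm_map _).symm
      _ = ‖coord u ν ι p - p.1 • u - p.2.1 • ν‖ := by rw [e1]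
      _ ≤ ‖coord u ν ι p - p.1 • u‖ + ‖p.2.1 • ν‖ := norm_sub_le _ _
      _ ≤ ‖coord u ν ι p‖ + ‖p.1 • u‖ + ‖p.2.1 • ν‖ := by
          have := norm_sub_le (coord u ν ι p) (p.1 • u)
          linarith
      _ = ‖coord u ν ι p‖ + |p.1| + |p.2.1| := by
          rw [norm_smul, norm_smul, hu, hν, mul_one, mul_one, Real.norm_eq_abs, Real.norm_eq_abs]
      _ ≤ 3 * ‖coord u ν ι p‖ := by linarith
  have a0 := norm_nonneg (coord u ν ι p)
  rw [Prod.norm_def, Prod.norm_def, Real.norm_eq_abs, Real.norm_eq_abs]
  exact max_le (by linarith) (max_le (by linarith) a3)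

include hu hν huν h1 h2 in
lemma compact_preimage [FiniteDimensional ℝ Z] {K : Set (E n)} (hK : IsCompact K) :
    IsCompact (coord u ν ι ⁻¹' K) := by
  have : ProperSpace Z := FiniteDimensional.proper_real Z
  refine Metric.isCompact_of_isClosed_isBounded (hK.isClosed.preimage (continuous_coord u ν ι)) ?_
  obtain ⟨R, hR⟩ := hK.isBounded.exists_norm_le
  refine isBounded_iff_forall_norm_le.mpr ⟨3 * R, fun p hp => ?_⟩
  exact (norm_coord hu hν huν h1 h2 p).trans (by linarith [hR _ hp])

end

/-- KE -/
theorem ke (hKC : KCStmt) (hTR : TRStmt) : KEStmt := by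
  intro n hn K' L ν u c hK hKs hx hL hLc hLf hν hu huν hdata
  obtain ⟨x₀, hx₀, hx₀c⟩ := hx
  let Z : Submodule ℝ (E n) := (Submodule.span ℝ {u, ν})ᗮ
  let ι : Z →ₗᵢ[ℝ] E n := Z.subtypeₗᵢ
  have h1 : ∀ z, inner ℝ u (ι z) = 0 := fun z =>
    (Submodule.mem_orthogonal _ _).mp z.2 u (Submodule.subset_span (by simp))
  have h2 : ∀ z, inner ℝ ν (ι z) = 0 := fun z =>
    (Submodule.mem_orthogonal _ _).mp z.2 ν (Submodule.subset_span (by simp))
  have hin := inner_coord (u := u) (ν := ν) (ι := ι) hν huν h2
  -- the inverse of coord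
  have hsurj : ∀ x : E n, ∃ z : Z, coord u ν ι (inner ℝ x u, inner ℝ x ν, z) = x := by
    intro x
    refine ⟨⟨x - (inner ℝ x u) • u - (inner ℝ x ν) • ν, ?_⟩, ?_⟩
    · rw [Submodule.mem_orthogonal]
      intro y hy
      rw [Submodule.mem_span_pair] at hy
      obtain ⟨a, b, rfl⟩ := hy
      have e1 : inner ℝ ν u = (0 : ℝ) := by rw [real_inner_comm]; exact huν
      simp only [inner_add_left, inner_sub_right, inner_smul_left, inner_smul_right,
        real_inner_self_eq_norm_sq, hu, hν, huν, e1]
      rw [real_inner_comm x u, real_inner_comm x ν]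
      simp
      ring
    · simp only [coord]
      change _ + _ + (x - (inner ℝ x u) • u - (inner ℝ x ν) • ν) = x
      abel
  have hfr : Module.finrank ℝ Z + 2 = n := by
    have e1 := Submodule.finrank_add_finrank_orthogonal (Submodule.span ℝ {u, ν})
    have e2 : Module.finrank ℝ (Submodule.span ℝ {u, ν}) = 2 := by
      have ho : Orthonormal ℝ ![u, ν] := by
        constructor
        · intro i
          fin_cases i
          · exact hu
          · exact hν
        · intro i j hij
          fin_cases i <;> fin_cases j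
          · exact absurd rfl hij
          · exact huν
          · change inner ℝ ν u = (0 : ℝ)
            rw [real_inner_comm]; exact huν
          · exact absurd rfl hij
      have := finrank_span_eq_card ho.linearIndependent
      rw [Matrix.range_cons, Matrix.range_cons, Matrix.range_empty, Set.union_empty,
        Set.singleton_union] at this
      simpa using this
    rw [e2] at e1
    have e3 : Module.finrank ℝ (E n) = n := by simp
    rw [e3] at e1
    change Module.finrank ℝ ((Submodule.span ℝ {u, ν})ᗮ : Submodule ℝ (E n)) + 2 = n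
    omega
  have hcont := continuous_coord u ν ι
  -- the set K
  have hKc : IsCompact (K' ∩ {x | inner ℝ x ν ≤ c}) :=
    hK.inter_right (isClosed_le (by fun_prop) continuous_const)
  have hKf : Full (K' ∩ {x | inner ℝ x ν ≤ c}) := by
    have hop : IsOpen (interior K' ∩ {x : E n | inner ℝ x ν < c}) :=
      isOpen_interior.inter (isOpen_lt (by fun_prop) continuous_const)
    have hsub : interior K' ∩ {x : E n | inner ℝ x ν < c} ⊆ K' ∩ {x | inner ℝ x ν ≤ c} :=
      inter_subset_inter interior_subset fun x (hx : inner ℝ x ν < c) => (hx.le : _ ≤ _)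
    obtain ⟨e, he, hball⟩ := Metric.isOpen_iff.mp isOpen_interior x₀ hx₀
    refine ⟨x₀ - (e / 2) • ν, interior_maximal hsub hop ⟨hball ?_, ?_⟩⟩
    · rw [mem_ball, dist_eq_norm]
      rw [sub_sub_cancel_left, norm_neg, norm_smul, hν, Real.norm_eq_abs, abs_of_pos (by positivity)]
      linarith
    · change inner ℝ (x₀ - (e / 2) • ν) ν < c
      rw [inner_sub_left, inner_smul_left, real_inner_self_eq_norm_sq, hν, hx₀c]
      simp
      linarith
  have key := hKC Z (MeasureTheory.Measure.addHaar : Measure Z)
    (coord u ν ι ⁻¹' (K' ∩ {x | inner ℝ x ν ≤ c})) (coord u ν ι ⁻¹' L)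
    (compact_preimage hu hν huν h1 h2 hKc)
    ((hKs.convex.inter (convex_halfSpace_le ⟨fun x y => inner_add_left x y ν, fun a x => by
      rw [inner_smul_left]; simp⟩ c)).is_linear_preimage (coord_lin u ν ι))
    (compact_preimage hu hν huν h1 h2 hL) (hLc.is_linear_preimage (coord_lin u ν ι)) c
    (by
      intro p hp
      rw [← hin p]
      exact hp.2)
    (by
      intro s₁ s₂ r z hz1 hz2 hne
      have hne' : coord u ν ι (s₁, r, z) ≠ coord u ν ι (s₂, r, z) := by
        intro h
        have := congrArg (fun x => inner ℝ x u) h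
        simp only [inner_coord' hu huν h1] at this
        exact hne this
      have hmid : coord u ν ι ((s₁ + s₂) / 2, r, z) ∈ interior K' := by
        have := hKs hz1.1 hz2.1 hne' (by norm_num : (0 : ℝ) < 1 / 2) (by norm_num : (0 : ℝ) < 1 / 2)
          (by norm_num)
        convert this using 1
        rw [← coord_smul, ← coord_smul, ← coord_add]
        congr 1
        ext1
        · simp; ring
        · ext1
          · simp; ring
          · simp only [Prod.snd_add, Prod.smul_snd]
            rw [← add_smul]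
            norm_num
      obtain ⟨e, he, hball⟩ := Metric.isOpen_iff.mp isOpen_interior _ hmid
      have hmove : ∀ d : ℝ, |d| < e → coord u ν ι ((s₁ + s₂) / 2, r + d, z) ∈ K' := by
        intro d hd
        refine interior_subset (hball ?_)
        rw [mem_ball, dist_eq_norm]
        have : coord u ν ι ((s₁ + s₂) / 2, r + d, z) - coord u ν ι ((s₁ + s₂) / 2, r, z)
            = d • ν := by
          simp only [coord, add_smul]
          abel
        rw [this, norm_smul, hν, mul_one, Real.norm_eq_abs]
        exact hd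
      have hrc : r ≤ c := by
        have := hz1.2
        change inner ℝ (coord u ν ι (s₁, r, z)) ν ≤ c at this
        rwa [hin] at this
      constructor
      · refine ⟨e / 2, by positivity, ?_, ?_⟩
        · have := hmove (-(e / 2)) (by rw [abs_neg, abs_of_pos (by positivity)]; linarith)
          rwa [← sub_eq_add_neg] at this
        · change inner ℝ (coord u ν ι _) ν ≤ c
          rw [hin]
          simp only
          linarith
      · intro hr
        refine ⟨min (e / 2) (c - r), lt_min (by positivity) (by linarith), ?_, ?_⟩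
        · refine hmove _ ?_
          rw [abs_of_pos (lt_min (by positivity) (by linarith))]
          exact lt_of_le_of_lt (min_le_left _ _) (by linarith)
        · change inner ℝ (coord u ν ι _) ν ≤ c
          rw [hin]
          simp only
          have := min_le_right (e / 2) (c - r)
          linarith)
    (by
      obtain ⟨z₀, hz₀⟩ := hsurj x₀
      rw [hx₀c] at hz₀
      obtain ⟨e, he, hball⟩ := Metric.isOpen_iff.mp isOpen_interior x₀ hx₀
      refine ⟨inner ℝ x₀ u, z₀, e / 2, by positivity, fun s z hs hz => ⟨?_, ?_⟩⟩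
      · refine interior_subset (hball ?_)
        rw [mem_ball, dist_eq_norm]
        have h3 : coord u ν ι (s, c, z) - x₀ = (s - inner ℝ x₀ u) • u + ι (z - z₀) := by
          conv_lhs => rw [← hz₀]
          simp only [coord, sub_smul, map_sub]
          abel
        rw [h3]
        calc ‖(s - inner ℝ x₀ u) • u + ι (z - z₀)‖
            ≤ ‖(s - inner ℝ x₀ u) • u‖ + ‖ι (z - z₀)‖ := norm_add_le _ _
          _ = |s - inner ℝ x₀ u| + dist z z₀ := by
              rw [norm_smul, hu, mul_one, Real.norm_eq_abs, ι.norm_map, dist_eq_norm]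
          _ < e := by linarith
      · change inner ℝ (coord u ν ι _) ν ≤ c
        rw [hin])
    (by
      obtain ⟨x, hx⟩ := hLf
      obtain ⟨z, hz⟩ := hsurj x
      exact ⟨_, by rw [mem_preimage, hz]; exact interior_subset hx⟩)
    (hTR n Z MeasureTheory.Measure.addHaar u ν ι hfr hu hν huν h1 h2 _ L hKc hL hKf hLf hdata)
  obtain ⟨z, s, s', hs, hs'⟩ := key
  refine ⟨coord u ν ι (s, c, z), hs.1, hin _, s' - s, ?_⟩
  have : coord u ν ι (s, c, z) + (s' - s) • u = coord u ν ι (s', c, z) := by
    simp only [coord, sub_smul]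
    abel
  rw [this]
  exact hs'

end PV.H18
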